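import Pool.Agent.Helper395.Final

open AlgebraicGeometry CategoryTheory CategoryTheory.Limits Pool.Agent.Helper395

/-- Property (U) is not an analytic local property: there are complex varieties `X`, `Y` and
closed points `x`, `y` with isomorphic analytic germs such that `X` has property (U) at `x`
but `Y` does not have property (U) at `y`. -/
theorem Pool.Agent.Results.MP_596c41_ag.GermTwist.result :
    ∃ (X Y : Scheme.{0}) (sX : X ⟶ Spec (.of ℂ)) (sY : Y ⟶ Spec (.of ℂ)) (x : X) (y : Y),
      IsVariety sX ∧ IsVariety sY ∧ IsClosed ({x} : Set X) ∧ IsClosed ({y} : Set Y) ∧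
      AnalyticGermIso sX x sY y ∧ PropertyU sX x ∧ ¬ PropertyU sY y :=
  main
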